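import Pool.Agent.PSS.StmtsS6

/-!
# Squad PSS, row BLG

The field `blk` of the class `Cl` if the centraliser of `V` is local: an element of the Brauer kernel
at `V` is not a unit of the centraliser, so it is nilpotent (Fitting), and `e ^ m - e` is in the Brauer
kernel at `Q` for all `m ≥ 1`.
-/

open scoped BigOperators

noncomputable section

namespace Pool.Agent.PSS.H2

open Pool.Agent.PSS
open Pool.Agent.PFC (Cz IsTv)

section

variable {F V A : Type} [Field F] [CommGroup V] [Ring A] [Algebra F A]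

theorem blg_cw (α : V →* A) (u : V) (a : A) : cw F α u a = α u * (a * α u⁻¹) := rfl

theorem blg_inv (α : V →* A) (u : V) : α u * α u⁻¹ = 1 := by
  rw [← map_mul, mul_inv_cancel, map_one]

theorem blg_inv' (α : V →* A) (u : V) : α u⁻¹ * α u = 1 := by
  rw [← map_mul, inv_mul_cancel, map_one]

theorem blg_com (α : V →* A) (Q : Subgroup V) (a : A) :
    a ∈ FxR (cw F α) Q ↔ ∀ u ∈ Q, α u * a = a * α u := by
  constructor
  · intro h u hu
    have h1 : α u * (a * α u⁻¹) = a := h u hu
    calc α u * a = α u * (a * (α u⁻¹ * α u)) := by rw [blg_inv', mul_one]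
      _ = (α u * (a * α u⁻¹)) * α u := by simp only [mul_assoc]
      _ = a * α u := by rw [h1]
  · intro h u hu
    show α u * (a * α u⁻¹) = a
    rw [← mul_assoc, h u hu, mul_assoc, blg_inv, mul_one]

theorem blg_cz (α : V →* A) (a : A) : a ∈ FxR (cw F α) ⊤ ↔ a ∈ Cz F α ⊤ := by
  rw [blg_com]
  constructor
  · intro h
    refine (Subalgebra.mem_centralizer_iff F).2 ?_
    rintro g ⟨u, hu, rfl⟩
    exact h u (Subgroup.mem_top u)
  · intro h u _
    exact (Subalgebra.mem_centralizer_iff F).1 h (α u) ⟨u, Subgroup.mem_top u, rfl⟩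

theorem blg_fmul (α : V →* A) (Q : Subgroup V) {a b : A} (ha : a ∈ FxR (cw F α) Q)
    (hb : b ∈ FxR (cw F α) Q) : a * b ∈ FxR (cw F α) Q := by
  rw [blg_com] at ha hb ⊢
  intro u hu
  rw [← mul_assoc, ha u hu, mul_assoc, hb u hu, mul_assoc]

theorem blg_mul (α : V →* A) (Q : Subgroup V) {x n : A} (hx : x ∈ FxR (cw F α) Q)
    (hn : n ∈ BKR (cw F α) Q) : x * n ∈ BKR (cw F α) Q := by
  refine Submodule.span_induction (p := fun n _ => x * n ∈ BKR (cw F α) Q) ?_ ?_ ?_ ?_ hn
  · rintro m ⟨P', S, a, hP, hS, ha, rfl⟩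
    refine Submodule.subset_span ⟨P', S, x * a, hP, hS, ?_, ?_⟩
    · refine blg_fmul α P' ?_ ha
      intro h hh
      exact hx h (hP.le hh)
    · rw [Finset.mul_sum]
      refine Finset.sum_congr rfl ?_
      intro s hs
      have h1 := (blg_com α Q x).1 hx s (hS.1 s hs)
      rw [blg_cw, blg_cw, ← mul_assoc, ← h1]
      simp only [mul_assoc]
  · rw [mul_zero]
    exact Submodule.zero_mem _
  · intro a b _ _ ha hb
    rw [mul_add]
    exact Submodule.add_mem _ ha hb
  · intro c a _ ha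
    rw [mul_smul_comm]
    exact Submodule.smul_mem _ c ha

end

/-- a nilpotent-or-left-invertible dichotomy in a local finite-dimensional algebra -/
theorem blg_fit {F C : Type} [Field F] [Ring C] [Algebra F C] [FiniteDimensional F C]
    (hl : IsLocalRing C) (e : C) : (∃ n : ℕ, 0 < n ∧ e ^ n = 0) ∨ ∃ d : C, d * e = 1 := by
  have h1 := LinearMap.eventually_isCompl_ker_pow_range_pow (LinearMap.mulRight F e)
  obtain ⟨n, hn, h2⟩ := (Filter.eventually_atTop.1 (h1.and (Filter.eventually_gt_atTop 0))).imp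
    (fun n h => h n le_rfl)
  have h3 : (1 : C) ∈ LinearMap.ker (LinearMap.mulRight F e ^ n) ⊔
      LinearMap.range (LinearMap.mulRight F e ^ n) := by
    rw [hn.sup_eq_top]
    exact Submodule.mem_top
  have h4 : ∀ c : C, (LinearMap.mulRight F e ^ n) c = c * e ^ n := by
    intro c
    rw [LinearMap.pow_mulRight]
    rfl
  obtain ⟨a, ha, b, hb, hab⟩ := Submodule.mem_sup.1 h3
  rw [LinearMap.mem_ker, h4] at ha
  obtain ⟨c, hc⟩ := hb
  rw [h4] at hc
  rcases hl.isUnit_or_isUnit_of_add_one hab with h5 | h5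
  · left
    exact ⟨n, h2, (h5.mul_right_eq_zero).1 ha⟩
  · right
    obtain ⟨u, hu⟩ := h5
    refine ⟨(↑u⁻¹ : C) * (c * e ^ (n - 1)), ?_⟩
    have h6 : e ^ (n - 1) * e = e ^ n := by
      rw [← pow_succ, Nat.sub_add_cancel h2]
    rw [mul_assoc, mul_assoc, h6, hc, ← hu, Units.inv_mul]

theorem blg : BlgStmt := by
  intro F V A _ _ _ _ _ _ α hloc hone Q e heV hidQ heB
  have heC : e ∈ Cz F α ⊤ := (blg_cz α e).1 heV
  have heQ : e ∈ FxR (cw F α) Q := fun h _ => heV h (Subgroup.mem_top h)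
  have hpow : ∀ m : ℕ, 0 < m → e ^ m - e ∈ BKR (cw F α) Q := by
    intro m hm
    induction m, hm using Nat.le_induction with
    | base =>
      have h1 : e ^ Nat.succ 0 - e = 0 := by
        rw [Nat.succ_eq_add_one, zero_add, pow_one, sub_self]
      rw [h1]
      exact Submodule.zero_mem _
    | succ m hm ih =>
      have h1 : e ^ (m + 1) - e = e * (e ^ m - e) + (e * e - e) := by
        rw [pow_succ', mul_sub]
        abel
      rw [h1]
      exact Submodule.add_mem _ (blg_mul α Q heQ ih) hidQ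
  rcases blg_fit (F := F) (C := Cz F α ⊤) hloc ⟨e, heC⟩ with ⟨n, hn, h0⟩ | ⟨d, hd⟩
  · have h1 : e ^ n = 0 := by
      have h2 := congrArg (fun t : Cz F α ⊤ => (t : A)) h0
      simpa using h2
    have h3 := hpow n hn
    rw [h1, zero_sub] at h3
    exact (Submodule.neg_mem_iff _).1 h3
  · exfalso
    apply hone
    have h2 := congrArg (fun t : Cz F α ⊤ => (t : A)) hd
    have h3 : (d : A) * e = 1 := by simpa using h2
    rw [← h3]
    exact blg_mul α ⊤ ((blg_cz α _).2 d.2) heB

end Pool.Agent.PSS.H2
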