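import Pool.Agent.PSS.StmtsOB

/-! Squad PSS, row FZ0: the first step (helper2). -/

open scoped BigOperators TensorProduct

noncomputable section

namespace Pool.Agent.PSS.H2

open Pool.Agent.PFD.D2 (Cdv FibG)
open Pool.Agent.PFD.D2b (FrR)
open Finset

theorem m1_d1 {K V B : Type} [Field K] [CommGroup V] [Ring B] [Algebra K B] {β : V →* B}
    {W : Subgroup V} {P : ℕ → (B →ₗ[K] B)} {m : ℕ → (B →ₗ[K] B →ₗ[K] B)}
    (ht : Trv β W P m) (x y : B) :
    m 1 x y = x * P 1 y + P 1 x * y - P 1 (x * y) := by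
  have h0 : m 0 x y = x * y := by
    have h := ht.pm 0 x y
    rw [Finset.Nat.antidiagonal_zero, Finset.sum_singleton, Finset.sum_singleton, ht.p0] at h
    simpa using h.symm
  have h := ht.pm (0 + 1) x y
  rw [Finset.Nat.sum_antidiagonal_succ, Finset.Nat.sum_antidiagonal_succ,
    Finset.Nat.antidiagonal_zero, Finset.sum_singleton, Finset.sum_singleton] at h
  simp only [ht.p0, LinearMap.id_apply, zero_add, h0] at h
  rw [← sub_eq_iff_eq_add] at h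
  rw [← h]

theorem fz0 : Fz0Stmt := by
  intro R K F V A A₀ B κ Ω _ _ _ _ _ _ _ _ _ _ _ _ _ _ _ _ _ _ W α lam x y b c C cv f α₀ c₀
    D₀ hα hc hD P m μ cc ht hμ hcc ω u v hu hv
  have hcK : ∀ (g : V), ((g, g) : V × V) • ω = ω → ∀ s : B,
      C.cK ω (C.i (α g) * s * C.i (α g⁻¹)) = C.cK ω s := by
    intro g hg s
    have h := C.frK.2.1 (g, g) ω s
    rw [hg] at h
    rw [← h]
    congr 1
    show _ = C.i (α g) * (s * C.i (α g⁻¹))
    rw [mul_assoc]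
  have hinv : ∀ g : V, C.i (α g) * C.i (α g⁻¹) = 1 := by
    intro g
    rw [← map_mul, ← map_mul, mul_inv_cancel, map_one, map_one]
  have hw : C.i (α (u * v)⁻¹) = C.i (α v⁻¹) * C.i (α u⁻¹) := by
    rw [← map_mul, ← map_mul, mul_inv_rev]
  have hw' : C.i (α (u * v)⁻¹) = C.i (α u⁻¹) * C.i (α v⁻¹) := by
    rw [← map_mul, ← map_mul, mul_inv]
  have huv : C.i (α u) * C.i (α v) = C.i (α v) * C.i (α u) := by
    rw [← map_mul, ← map_mul, ← map_mul, ← map_mul, mul_comm]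
  -- the term of `m 1`
  have h1 : C.cK ω ((m 1 (C.i (α u)) (C.i (α v)) - m 1 (C.i (α v)) (C.i (α u))) *
      C.i (α (u * v)⁻¹)) = 0 := by
    rw [m1_d1 ht, m1_d1 ht, ← huv]
    have e : ((C.i (α u) * P 1 (C.i (α v)) + P 1 (C.i (α u)) * C.i (α v) -
        P 1 (C.i (α u) * C.i (α v))) - (C.i (α v) * P 1 (C.i (α u)) +
        P 1 (C.i (α v)) * C.i (α u) - P 1 (C.i (α u) * C.i (α v)))) * C.i (α (u * v)⁻¹) =
        (C.i (α u) * (P 1 (C.i (α v)) * C.i (α v⁻¹)) * C.i (α u⁻¹)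
          - P 1 (C.i (α v)) * C.i (α v⁻¹)) -
        (C.i (α v) * (P 1 (C.i (α u)) * C.i (α u⁻¹)) * C.i (α v⁻¹)
          - P 1 (C.i (α u)) * C.i (α u⁻¹)) := by
      have e1 : C.i (α u) * P 1 (C.i (α v)) * C.i (α (u * v)⁻¹) =
          C.i (α u) * (P 1 (C.i (α v)) * C.i (α v⁻¹)) * C.i (α u⁻¹) := by
        rw [hw]
        simp only [mul_assoc]
      have e2 : C.i (α v) * P 1 (C.i (α u)) * C.i (α (u * v)⁻¹) =
          C.i (α v) * (P 1 (C.i (α u)) * C.i (α u⁻¹)) * C.i (α v⁻¹) := by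
        rw [hw']
        simp only [mul_assoc]
      have e3 : P 1 (C.i (α u)) * C.i (α v) * C.i (α (u * v)⁻¹) =
          P 1 (C.i (α u)) * C.i (α u⁻¹) := by
        rw [hw, mul_assoc, ← mul_assoc (C.i (α v)), hinv, one_mul]
      have e4 : P 1 (C.i (α v)) * C.i (α u) * C.i (α (u * v)⁻¹) =
          P 1 (C.i (α v)) * C.i (α v⁻¹) := by
        rw [hw', mul_assoc, ← mul_assoc (C.i (α u)), hinv, one_mul]
      simp only [sub_mul, add_mul]
      rw [e1, e2, e3, e4]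
      abel
    rw [e, map_sub, map_sub, map_sub, hcK u hu, hcK v hv, sub_self, sub_self, sub_zero]
  -- the term of `μ`
  obtain ⟨e₁, he₁, hq₁⟩ := hμ (α u) (α v)
  obtain ⟨e₂, he₂, hq₂⟩ := hμ (α v) (α u)
  have h2 : C.cK ω ((μ (C.i (α u)) (C.i (α v)) - μ (C.i (α v)) (C.i (α u))) *
      C.i (α (u * v)⁻¹)) = algebraMap R K (c ω ((e₁ - e₂) * α (u * v)⁻¹)) := by
    rw [← he₁, ← he₂, ← map_sub, ← map_mul, C.ck]
  have h3 : cv.κ (c ω ((e₁ - e₂) * α (u * v)⁻¹)) = 0 := by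
    rw [hc, map_mul, map_sub, hq₁, hq₂, hα, hα, hα]
    exact hD ω u v hu hv
  obtain ⟨s, hs⟩ := (cv.ker _).1 h3
  have hπ : algebraMap R K cv.π ≠ 0 := by
    intro h
    have : cv.π = 0 := C.rinj (by rw [h, map_zero])
    have h' := cv.reg 1 (by rw [this, zero_mul])
    exact one_ne_zero h'
  refine ⟨-s, ?_⟩
  have h4 : algebraMap R K cv.π * C.cK ω ((cc (C.i (α u)) (C.i (α v)) -
      cc (C.i (α v)) (C.i (α u))) * C.i (α (u * v)⁻¹)) =
      algebraMap R K cv.π * algebraMap R K (-s) := by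
    rw [← smul_eq_mul, ← map_smul, ← smul_mul_assoc, smul_sub, hcc, hcc]
    have e : (m 1 (C.i (α u)) (C.i (α v)) - μ (C.i (α u)) (C.i (α v)) -
        (m 1 (C.i (α v)) (C.i (α u)) - μ (C.i (α v)) (C.i (α u)))) * C.i (α (u * v)⁻¹) =
        (m 1 (C.i (α u)) (C.i (α v)) - m 1 (C.i (α v)) (C.i (α u))) * C.i (α (u * v)⁻¹) -
        (μ (C.i (α u)) (C.i (α v)) - μ (C.i (α v)) (C.i (α u))) * C.i (α (u * v)⁻¹) := by
      rw [← sub_mul]
      congr 1
      abel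
    rw [e, map_sub, h1, h2, hs, zero_sub, map_mul, map_neg, mul_neg]
  exact mul_left_cancel₀ hπ h4

end Pool.Agent.PSS.H2
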