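import Pool.Agent.PSS.StmtsS1d

/-!
# Squad PSS, row RWV

Dual families over `W` from dual families over `V`: `V` is the disjoint union of the cosets
`z ^ j W`, `j < orderOf z`.
-/

open scoped BigOperators

noncomputable section

namespace Pool.Agent.PSS.H2

open Pool.Agent.PSS

theorem rwv_bij {V E : Type} [CommGroup V] [Fintype V] [Group E] (φ : E →* MulAut V)
    (W : Subgroup V) (z : V) (h : Vz φ W z) :
    Function.Bijective (fun p : Fin (orderOf z) × W => z ^ (p.1 : ℕ) * (p.2 : V)) := by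
  constructor
  · rintro ⟨i, u⟩ ⟨j, w⟩ hij
    have hij' : z ^ (i : ℕ) * (u : V) = z ^ (j : ℕ) * (w : V) := hij
    have key : ∀ (i j : Fin (orderOf z)) (u w : W), z ^ (i : ℕ) * (u : V) = z ^ (j : ℕ) * (w : V) →
        (i : ℕ) ≤ j → i = j := by
      intro i j u w hh hle
      obtain ⟨d, hd⟩ := Nat.exists_eq_add_of_le hle
      rw [hd, pow_add, mul_assoc] at hh
      have h1 : (u : V) = z ^ d * w := mul_left_cancel hh
      have h2 : z ^ d = (u : V) * (w : V)⁻¹ := by
        rw [h1, mul_assoc, mul_inv_cancel, mul_one]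
      have h3 : z ^ d = 1 := by
        apply h.dis
        rw [h2]
        exact W.mul_mem u.2 (W.inv_mem w.2)
      have h4 : orderOf z ∣ d := orderOf_dvd_of_pow_eq_one h3
      have h5 : d < orderOf z := by
        have := j.2
        omega
      have h6 : d = 0 := Nat.eq_zero_of_dvd_of_lt h4 h5
      apply Fin.ext
      omega
    have h1 : i = j := by
      rcases le_total (i : ℕ) (j : ℕ) with h2 | h2
      · exact key i j u w hij' h2
      · exact (key j i w u hij'.symm h2).symm
    subst h1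
    have h2 : (u : V) = w := mul_left_cancel hij'
    have h3 : u = w := Subtype.ext h2
    rw [h3]
  · intro v
    obtain ⟨j, w, hw, hv⟩ := h.gen v
    have hpos : 0 < orderOf z := orderOf_pos z
    refine ⟨(⟨j % orderOf z, Nat.mod_lt _ hpos⟩, ⟨w, hw⟩), ?_⟩
    show z ^ (j % orderOf z) * w = v
    rw [pow_mod_orderOf, ← hv]

theorem rwv_sum {V E A : Type} [CommGroup V] [Fintype V] [Group E] [AddCommMonoid A]
    (φ : E →* MulAut V) (W : Subgroup V) [Fintype W] (z : V) (h : Vz φ W z) (f : V → A) :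
    ∑ j : Fin (orderOf z), ∑ w : W, f (z ^ (j : ℕ) * (w : V)) = ∑ v, f v := by
  rw [← Fintype.sum_prod_type' (f := fun (j : Fin (orderOf z)) (w : W) =>
    f (z ^ (j : ℕ) * (w : V)))]
  exact (rwv_bij φ W z h).sum_comp f

theorem rwv : RwvStmt := by
  intro k V E A K _ _ _ _ _ _ _ φ W _ z α lam x y hz hR
  have e0 : ∀ (j : ℕ) (w : W) (t : A), aw α W w⁻¹ * (α (z ^ j)⁻¹ * t) =
      α (z ^ j * (w : V))⁻¹ * t := by
    intro j w t
    have h1 : aw α W w⁻¹ = α (w : V)⁻¹ := rfl
    rw [h1, ← mul_assoc, ← map_mul, mul_inv_rev]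
  have e0' : ∀ (j : ℕ) (w : W) (t : A), t * α (z ^ j) * aw α W w =
      t * α (z ^ j * (w : V)) := by
    intro j w t
    have h1 : aw α W w = α (w : V) := rfl
    rw [h1, mul_assoc, ← map_mul]
  refine ⟨hR.sym, ?_, ?_⟩
  · intro a
    rw [Fintype.sum_prod_type]
    refine Eq.trans ?_ (hR.e1 a)
    refine Finset.sum_congr rfl ?_
    intro q _
    rw [← rwv_sum φ W z hz (fun v => lam (α v⁻¹ * y q * a) • (x q * α v))]
    refine Finset.sum_congr rfl ?_
    intro j _
    refine Finset.sum_congr rfl ?_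
    intro w _
    show lam (aw α W w⁻¹ * (α (z ^ (j : ℕ))⁻¹ * y q) * a) • (x q * α (z ^ (j : ℕ)) * aw α W w) = _
    rw [e0, e0']
  · intro a
    rw [Fintype.sum_prod_type]
    refine Eq.trans ?_ (hR.e2 a)
    refine Finset.sum_congr rfl ?_
    intro q _
    rw [← rwv_sum φ W z hz (fun v => lam (a * (x q * α v)) • (α v⁻¹ * y q))]
    refine Finset.sum_congr rfl ?_
    intro j _
    refine Finset.sum_congr rfl ?_
    intro w _
    show lam (a * (x q * α (z ^ (j : ℕ)) * aw α W w)) • (aw α W w⁻¹ * (α (z ^ (j : ℕ))⁻¹ * y q)) = _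
    rw [e0, e0']

end Pool.Agent.PSS.H2
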